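import Pool.Agent.H92.EX.Targets2
import Pool.Agent.H13.RR.RODE

/-!
# MP_34b97f_an, row XMON: monomials of a function which pretends to be `cm x`
-/

set_option autoImplicit false

open Filter Topology Finset

namespace Pool.Agent.H78.EX

open Pool.Agent.H89.MT Pool.Agent.H92.EX Pool.Agent.H92.RR

theorem absI1 (a : I1) : |(a : ℝ)| ≤ 1 := abs_le.2 ⟨a.2.1, a.2.2⟩

theorem abs_prod_sub_le {ι : Type*} (s : Finset ι) (a b : ι → ℝ)
    (ha : ∀ i ∈ s, |a i| ≤ 1) (hb : ∀ i ∈ s, |b i| ≤ 1) :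
    |∏ i ∈ s, a i - ∏ i ∈ s, b i| ≤ ∑ i ∈ s, |a i - b i| := by
  classical
  induction s using Finset.induction_on with
  | empty => simp
  | insert x s hx ih =>
    rw [Finset.prod_insert hx, Finset.prod_insert hx, Finset.sum_insert hx]
    have ih' := ih (fun i hi => ha i (Finset.mem_insert_of_mem hi))
      (fun i hi => hb i (Finset.mem_insert_of_mem hi))
    have h1 := ha x (Finset.mem_insert_self x s)
    have h2 : |∏ i ∈ s, b i| ≤ 1 := by
      rw [Finset.abs_prod]
      exact Finset.prod_le_one (fun i _ => abs_nonneg _)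
        (fun i hi => hb i (Finset.mem_insert_of_mem hi))
    have e : a x * ∏ i ∈ s, a i - b x * ∏ i ∈ s, b i =
        a x * (∏ i ∈ s, a i - ∏ i ∈ s, b i) + (a x - b x) * ∏ i ∈ s, b i := by ring
    rw [e]
    have h3 : |a x * (∏ i ∈ s, a i - ∏ i ∈ s, b i)| ≤ |∏ i ∈ s, a i - ∏ i ∈ s, b i| := by
      rw [abs_mul]
      exact mul_le_of_le_one_left (abs_nonneg _) h1
    have h4 : |(a x - b x) * ∏ i ∈ s, b i| ≤ |a x - b x| := by
      rw [abs_mul]
      exact mul_le_of_le_one_right (abs_nonneg _) h2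
    have h5 := abs_add_le (a x * (∏ i ∈ s, a i - ∏ i ∈ s, b i)) ((a x - b x) * ∏ i ∈ s, b i)
    linarith

theorem abs_pow_sub_le {a b : ℝ} (ha : |a| ≤ 1) (hb : |b| ≤ 1) (k : ℕ) :
    |a ^ k - b ^ k| ≤ k * |a - b| := by
  have h := abs_prod_sub_le (range k) (fun _ => a) (fun _ => b) (fun _ _ => ha) (fun _ _ => hb)
  simpa using h

theorem pf_XMON (hRAP : T_XRAP) (hPER : T_XPER) (hCM : T_CM) : T_XMON := by
  classical
  intro u x hu hbdd hsgn hx H a hodd
  obtain ⟨hmul, hone, habs, -⟩ := hCM x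
  have hsq : ∀ n, (cm x n : ℝ) * cm x n = 1 := fun n => by
    rw [← abs_mul_abs_self, habs, one_mul]
  set g : ℕ → I1 := fun n => mu (u n) (cm x n) with hg
  have hgv : ∀ n, (g n : ℝ) = u n * cm x n := fun n => rfl
  have hgm : IsMult g := by
    refine ⟨?_, fun m n hm hn hc => ?_⟩
    · rw [hgv, hu.1, hone, one_mul]
    · rw [hgv, hgv, hgv, hu.2 m n hm hn hc, hmul m n hm hn]
      ring
  have hSS : (SS fun p => 1 - (g p : ℝ)) = SS fun p => 1 - |(u p : ℝ)| := by
    funext N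
    unfold SS
    refine Finset.sum_congr rfl fun p hp => ?_
    have hpp : p.Prime := (mem_filter.1 hp).2
    show (1 - (g p : ℝ)) / p = (1 - |(u p : ℝ)|) / p
    rw [hgv, hsgn p hpp]
  have hR : RAP g := hRAP g hgm (by rw [hSS]; exact hbdd)
  have hug : ∀ n, (u n : ℝ) = g n * cm x n := fun n => by
    rw [hgv, mul_assoc, hsq, mul_one]
  -- the set of the odd exponents
  set H' : Finset ℕ := H.filter (fun h => Odd (a h)) with hH'
  have hH'ne : H'.Nonempty := by
    obtain ⟨h, hh, ho⟩ := hodd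
    exact ⟨h, mem_filter.2 ⟨hh, ho⟩⟩
  have hcorr : ∀ n, ∏ h ∈ H, (cm x (n + h) : ℝ) ^ a h = corr (cm x) H' n := by
    intro n
    unfold corr
    rw [hH', Finset.prod_filter]
    refine Finset.prod_congr rfl fun h _ => ?_
    split_ifs with ho
    · obtain ⟨k, hk⟩ := ho
      rw [hk, pow_succ, pow_mul, sq, hsq, one_pow, one_mul]
    · rw [Nat.not_odd_iff_even] at ho
      obtain ⟨k, hk⟩ := ho
      rw [hk, ← two_mul, pow_mul, sq, hsq, one_pow]
  have hmono : ∀ n, mono u H a n = (∏ h ∈ H, (g (n + h) : ℝ) ^ a h) * corr (cm x) H' n := by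
    intro n
    unfold mono
    rw [← hcorr, ← Finset.prod_mul_distrib]
    refine Finset.prod_congr rfl fun h _ => ?_
    rw [hug, mul_pow]
  have hc1 : ∀ n, |corr (cm x) H' n| ≤ 1 := by
    intro n
    unfold corr
    rw [Finset.abs_prod]
    exact Finset.prod_le_one (fun _ _ => abs_nonneg _) fun h _ => (habs _).le
  rw [Metric.tendsto_atTop]
  intro ε hε
  set A : ℝ := ∑ h ∈ H, (a h : ℝ) with hA
  have hA0 : 0 ≤ A := Finset.sum_nonneg fun _ _ => Nat.cast_nonneg _
  obtain ⟨q, Q, hq, hQ, hev⟩ := hR (ε / (2 * (A + 1))) (by positivity)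
  set d : ℕ → ℝ := fun n => |(g n : ℝ) - Q n| with hd
  have hd2 : ∀ n, |d n| ≤ 2 := fun n => by
    rw [hd]
    simp only [abs_abs]
    have h1 := abs_sub (g n : ℝ) (Q n : ℝ)
    have h2 := absI1 (g n)
    have h3 := absI1 (Q n)
    linarith
  set W : ℤ → ℝ := fun m => ∏ h ∈ H, (Q (m + h) : ℝ) ^ a h with hW
  have hWp : ∀ m, W (m + q) = W m := fun m => by
    rw [hW]
    refine Finset.prod_congr rfl fun h _ => ?_
    rw [add_right_comm, hQ]
  have hmain := hPER x hx H' hH'ne q W hq hWp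
  -- the pointwise bound
  have hpt : ∀ n : ℕ, |mono u H a n - corr (cm x) H' n * W n| ≤ ∑ h ∈ H, a h * d (n + h) := by
    intro n
    rw [hmono, mul_comm (corr (cm x) H' n), ← sub_mul, abs_mul]
    refine (mul_le_of_le_one_right (abs_nonneg _) (hc1 n)).trans ?_
    rw [hW]
    refine (abs_prod_sub_le H _ _ (fun h _ => ?_) fun h _ => ?_).trans ?_
    · rw [abs_pow]
      exact pow_le_one₀ (abs_nonneg _) (absI1 _)
    · rw [abs_pow]
      exact pow_le_one₀ (abs_nonneg _) (absI1 _)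
    · refine Finset.sum_le_sum fun h _ => ?_
      have h1 := abs_pow_sub_le (absI1 (g (n + h))) (absI1 (Q ((n : ℤ) + h))) (a h)
      simp only [hd]
      push_cast
      exact h1
  have hE : Tendsto (fun N => ∑ h ∈ H, (a h : ℝ) * (lavg N (fun n => d (n + h)) - lavg N d) +
      |lavg N fun n => corr (cm x) H' n * W n|) atTop (𝓝 (∑ h ∈ H, (a h : ℝ) * 0 + |(0 : ℝ)|)) :=
    (tendsto_finsetSum _ fun h _ =>
      (Pool.Agent.H13.RR.lavg_shift hd2 h).const_mul _).add hmain.abs
  simp only [mul_zero, Finset.sum_const_zero, abs_zero, add_zero] at hE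
  obtain ⟨N₀, hN₀⟩ := eventually_atTop.1
    ((hE.eventually_lt_const (show (0 : ℝ) < ε / 2 by positivity)).and hev)
  refine ⟨N₀, fun N hN => ?_⟩
  obtain ⟨h1, h2⟩ := hN₀ N hN
  rw [Real.dist_eq, sub_zero]
  have h3 := Pool.Agent.H13.RR.abs_lavg_sub (mono u H a) (fun n => corr (cm x) H' n * W n) N
  have h4 : lavg N (fun n => |mono u H a n - corr (cm x) H' n * W n|) ≤
      ∑ h ∈ H, (a h : ℝ) * lavg N fun n => d (n + h) := by
    refine (Pool.Agent.H13.RR.lavg_mono (fun n _ => hpt n) N).trans (le_of_eq ?_)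
    rw [Pool.Agent.H13.RR.lavg_sum H (fun h n => (a h : ℝ) * d (n + h)) N]
    exact Finset.sum_congr rfl fun h _ => Pool.Agent.H13.RR.lavg_mul _ _ N
  have h5 : ∑ h ∈ H, (a h : ℝ) * lavg N (fun n => d (n + h)) =
      ∑ h ∈ H, (a h : ℝ) * (lavg N (fun n => d (n + h)) - lavg N d) + A * lavg N d := by
    rw [hA, Finset.sum_mul, ← Finset.sum_add_distrib]
    exact Finset.sum_congr rfl fun h _ => by ring
  have h6 : A * lavg N d ≤ ε / 2 := by
    have h7 : A * lavg N d ≤ A * (ε / (2 * (A + 1))) := mul_le_mul_of_nonneg_left h2 hA0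
    refine h7.trans ?_
    rw [← mul_div_assoc, div_le_div_iff₀ (by positivity) (by norm_num)]
    nlinarith
  have h8 : |lavg N (mono u H a)| ≤ |lavg N (mono u H a) -
      lavg N fun n => corr (cm x) H' n * W n| + |lavg N fun n => corr (cm x) H' n * W n| := by
    have := abs_add_le (lavg N (mono u H a) - lavg N fun n => corr (cm x) H' n * W n)
      (lavg N fun n => corr (cm x) H' n * W n)
    rwa [sub_add_cancel] at this
  linarith

end Pool.Agent.H78.EX
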