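import Pool.Agent.H92.EX.Targets2
import Pool.Agent.H92.EX.XCM
import Pool.Agent.H13.RR.RODE
import Pool.Agent.H74.MT.GEN

/-!
# MP_34b97f_an, row XPER: correlations with a periodic weight
-/

set_option autoImplicit false

open Filter Topology Finset

namespace Pool.Agent.H78.EX

open Pool.Agent.H89.MT Pool.Agent.H92.EX

theorem abs_corr (x : ℕ → Bool) (H : Finset ℕ) (n : ℕ) : |corr (cm x) H n| = 1 := by
  unfold corr
  rw [Finset.abs_prod]
  exact Finset.prod_eq_one fun h _ => abs_cm' x _

theorem corr_sq (x : ℕ → Bool) (H : Finset ℕ) (n : ℕ) :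
    corr (cm x) H n * corr (cm x) H n = 1 := by
  rw [← abs_mul_abs_self, abs_corr, one_mul]

theorem corr_symm (x : ℕ → Bool) (A B : Finset ℕ) (n : ℕ) :
    corr (cm x) A n * corr (cm x) B n = corr (cm x) (A \ B ∪ B \ A) n := by
  have h1 : corr (cm x) A n = corr (cm x) (A ∩ B) n * corr (cm x) (A \ B) n :=
    (Finset.prod_inter_mul_prod_diff A B _).symm
  have h2 : corr (cm x) B n = corr (cm x) (A ∩ B) n * corr (cm x) (B \ A) n := by
    rw [Finset.inter_comm]
    exact (Finset.prod_inter_mul_prod_diff B A _).symm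
  have h3 : corr (cm x) (A \ B ∪ B \ A) n =
      corr (cm x) (A \ B) n * corr (cm x) (B \ A) n := by
    unfold corr
    exact Finset.prod_union disjoint_sdiff_sdiff
  rw [h1, h2, h3]
  linear_combination (corr (cm x) (A \ B) n * corr (cm x) (B \ A) n) * corr_sq x (A ∩ B) n

theorem corr_shift (x : ℕ → Bool) (H : Finset ℕ) (n t : ℕ) :
    corr (cm x) H (n + t) = corr (cm x) (H.image (t + ·)) n := by
  unfold corr
  rw [Finset.prod_image fun a _ b _ h => Nat.add_left_cancel h]
  exact Finset.prod_congr rfl fun h _ => by rw [add_assoc]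

theorem image_ne (H : Finset ℕ) (hH : H.Nonempty) {s t : ℕ} (h : s ≠ t) :
    H.image (s + ·) ≠ H.image (t + ·) := by
  intro he
  have h1 : ∀ s : ℕ, ∑ i ∈ H.image (s + ·), i = H.card * s + ∑ i ∈ H, i := by
    intro s
    rw [Finset.sum_image fun a _ b _ h => Nat.add_left_cancel h, Finset.sum_add_distrib]
    simp
  have h2 := h1 s
  rw [he, h1 t] at h2
  have h3 : H.card * t = H.card * s := Nat.add_right_cancel h2
  exact h (Nat.eq_of_mul_eq_mul_left hH.card_pos h3).symm

theorem tendsto_pair (x : ℕ → Bool)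
    (hx : ∀ H : Finset ℕ, H.Nonempty → Tendsto (fun N => lavg N (corr (cm x) H)) atTop (𝓝 0))
    (H : Finset ℕ) (hH : H.Nonempty) (s t : ℕ) :
    Tendsto (fun N => lavg N fun n => corr (cm x) H (n + s) * corr (cm x) H (n + t)) atTop
      (𝓝 (if s = t then 1 else 0)) := by
  by_cases h : s = t
  · subst h
    rw [if_pos rfl]
    have e : (fun n => corr (cm x) H (n + s) * corr (cm x) H (n + s)) = fun _ => (1 : ℝ) :=
      funext fun n => corr_sq x H _
    rw [e]
    exact Pool.Agent.H74.MT.tendsto_lavg_one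
  · rw [if_neg h]
    have e : (fun n => corr (cm x) H (n + s) * corr (cm x) H (n + t)) =
        corr (cm x) (H.image (s + ·) \ H.image (t + ·) ∪ H.image (t + ·) \ H.image (s + ·)) := by
      funext n
      rw [corr_shift, corr_shift, corr_symm]
    rw [e]
    apply hx
    rw [Finset.nonempty_iff_ne_empty]
    intro h0
    rw [Finset.union_eq_empty, Finset.sdiff_eq_empty_iff_subset,
      Finset.sdiff_eq_empty_iff_subset] at h0
    exact image_ne H hH h (Finset.Subset.antisymm h0.1 h0.2)

theorem pf_XPER : T_XPER := by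
  classical
  intro x hx H hH q Q hq hQ
  -- the weight is bounded
  have hQn : ∀ n : ℕ, Q ((n + q : ℕ) : ℤ) = Q n := fun n => by
    push_cast
    exact hQ n
  obtain ⟨B, hB⟩ := Pool.Agent.H13.RR.bdd_per (p := fun n : ℕ => Q n) hq hQn
  have hQk : ∀ k n : ℕ, Q ((n + q * k : ℕ) : ℤ) = Q n := by
    intro k
    induction k with
    | zero => intro n; simp
    | succ k ih =>
      intro n
      have e : n + q * (k + 1) = (n + q * k) + q := by ring
      rw [e, hQn, ih]
  set a : ℕ → ℝ := corr (cm x) H with ha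
  have ha1 : ∀ n, |a n| = 1 := abs_corr x H
  set F : ℕ → ℝ := fun n => a n * Q n with hF
  have hFB : ∀ n, |F n| ≤ B := fun n => by
    rw [hF]
    simp only [abs_mul, ha1, one_mul]
    exact hB n
  have hFk : ∀ k n : ℕ, F (n + q * k) = a (n + q * k) * Q n := fun k n => by
    simp only [hF]
    rw [hQk]
  -- it suffices to have a bound for every `m`
  have key : ∀ m : ℕ, 0 < m → ∀ᶠ N : ℕ in atTop, |lavg N F| ≤ (B ^ 2 + 1) / m := by
    intro m hm
    have hm0 : (0 : ℝ) < m := by exact_mod_cast hm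
    set K : ℕ := m ^ 2 with hK
    have hK0 : (0 : ℝ) < K := by
      rw [hK]
      push_cast
      positivity
    set S : ℕ → ℝ := fun n => (1 / (K : ℝ)) * ∑ k ∈ range K, a (n + q * k) with hS
    -- the average over the shifts
    have h1 : Tendsto (fun N => lavg N F - lavg N fun n => S n * Q n) atTop (𝓝 0) := by
      have h2 : Tendsto (fun N => (1 / (K : ℝ)) * ∑ k ∈ range K,
          -(lavg N (fun n => F (n + q * k)) - lavg N F)) atTop (𝓝 ((1 / (K : ℝ)) *
            ∑ k ∈ range K, -0)) :=
        (tendsto_finset_sum _ fun k _ =>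
          (Pool.Agent.H13.RR.lavg_shift hFB (q * k)).neg).const_mul _
      rw [neg_zero, Finset.sum_const_zero, mul_zero] at h2
      refine h2.congr fun N => ?_
      have e1 : (fun n => S n * Q n) = fun n => (1 / (K : ℝ)) * ∑ k ∈ range K, F (n + q * k) := by
        funext n
        simp only [hS, hFk]
        rw [← Finset.sum_mul]
        ring
      rw [e1, Pool.Agent.H13.RR.lavg_mul, Pool.Agent.H13.RR.lavg_sum (range K)
        (fun k n => F (n + q * k)) N]
      rw [Finset.sum_neg_distrib, Finset.sum_sub_distrib, Finset.sum_const, card_range,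
        nsmul_eq_mul]
      field_simp
      ring
    -- the square of the average
    have h2 : Tendsto (fun N => lavg N fun n => S n ^ 2) atTop (𝓝 (1 / K)) := by
      have h3 : Tendsto (fun N => (1 / (K : ℝ)) ^ 2 * ∑ k ∈ range K, ∑ l ∈ range K,
          lavg N fun n => a (n + q * k) * a (n + q * l)) atTop
          (𝓝 ((1 / (K : ℝ)) ^ 2 * ∑ k ∈ range K, ∑ l ∈ range K,
            if q * k = q * l then (1 : ℝ) else 0)) :=
        (tendsto_finset_sum _ fun k _ => tendsto_finset_sum _ fun l _ =>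
          tendsto_pair x hx H hH (q * k) (q * l)).const_mul _
      have e2 : (1 / (K : ℝ)) ^ 2 * ∑ k ∈ range K, ∑ l ∈ range K,
            (if q * k = q * l then (1 : ℝ) else 0) = 1 / K := by
        have e3 : ∀ k ∈ range K, ∑ l ∈ range K, (if q * k = q * l then (1 : ℝ) else 0) = 1 := by
          intro k hk
          have e4 : ∀ l, (q * k = q * l) ↔ (k = l) := fun l =>
            ⟨fun h => Nat.eq_of_mul_eq_mul_left hq h, fun h => by rw [h]⟩
          simp only [e4]
          rw [Finset.sum_ite_eq, if_pos hk]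
        rw [Finset.sum_congr rfl e3, Finset.sum_const, card_range, nsmul_eq_mul]
        field_simp
      rw [e2] at h3
      refine h3.congr fun N => ?_
      have e1 : (fun n => S n ^ 2) = fun n => (1 / (K : ℝ)) ^ 2 *
          ∑ k ∈ range K, ∑ l ∈ range K, a (n + q * k) * a (n + q * l) := by
        funext n
        simp only [hS]
        rw [mul_pow, sq (∑ k ∈ range K, a (n + q * k)), Finset.sum_mul_sum]
      rw [e1, Pool.Agent.H13.RR.lavg_mul]
      congr 1
      rw [Pool.Agent.H13.RR.lavg_sum (range K)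
        (fun k n => ∑ l ∈ range K, a (n + q * k) * a (n + q * l)) N]
      refine Finset.sum_congr rfl fun k _ => ?_
      rw [Pool.Agent.H13.RR.lavg_sum (range K) (fun l n => a (n + q * k) * a (n + q * l)) N]
    -- the bound
    have h3 : Tendsto (fun N => |lavg N F - lavg N fun n => S n * Q n| +
        (B ^ 2 / (2 * m) * lavg N (fun _ => 1) + m / 2 * lavg N fun n => S n ^ 2)) atTop
        (𝓝 (|(0 : ℝ)| + (B ^ 2 / (2 * m) * 1 + m / 2 * (1 / K)))) :=
      h1.abs.add ((Pool.Agent.H74.MT.tendsto_lavg_one.const_mul _).add (h2.const_mul _))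
    have h4 : |(0 : ℝ)| + (B ^ 2 / (2 * m) * 1 + m / 2 * (1 / K)) < (B ^ 2 + 1) / m := by
      rw [abs_zero, zero_add, hK]
      push_cast
      have e : B ^ 2 / (2 * (m : ℝ)) * 1 + m / 2 * (1 / (m : ℝ) ^ 2) = (B ^ 2 + 1) / m / 2 := by
        field_simp
      rw [e]
      exact half_lt_self (by positivity)
    filter_upwards [h3.eventually_lt_const h4] with N hN
    refine le_trans ?_ hN.le
    have h5 : |lavg N fun n => S n * Q n| ≤
        B ^ 2 / (2 * m) * lavg N (fun _ => 1) + m / 2 * lavg N fun n => S n ^ 2 := by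
      have h6 : lavg N (fun n => B ^ 2 / (2 * m) * 1 + m / 2 * S n ^ 2) =
          B ^ 2 / (2 * m) * lavg N (fun _ => 1) + m / 2 * lavg N fun n => S n ^ 2 := by
        rw [Pool.Agent.H13.RR.lavg_add, Pool.Agent.H13.RR.lavg_mul, Pool.Agent.H13.RR.lavg_mul]
      rw [← h6]
      have h7 : |lavg N (fun n => S n * Q n) - lavg N fun _ => (0 : ℝ)| ≤
          lavg N fun n => |S n * Q n - 0| := Pool.Agent.H13.RR.abs_lavg_sub _ _ N
      have h8 : lavg N (fun _ => (0 : ℝ)) = 0 := by
        unfold lavg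
        simp
      rw [h8, sub_zero] at h7
      refine h7.trans (Pool.Agent.H13.RR.lavg_mono (fun n _ => ?_) N)
      rw [sub_zero, abs_mul]
      have h9 : |Q n| ≤ B := hB n
      have h10 : |Q n| ^ 2 ≤ B ^ 2 := pow_le_pow_left₀ (abs_nonneg _) h9 2
      have h11 : 0 ≤ (m * |S n| - |Q n|) ^ 2 := sq_nonneg _
      have h12 : |S n| ^ 2 = S n ^ 2 := sq_abs _
      have e : B ^ 2 / (2 * (m : ℝ)) * 1 + m / 2 * S n ^ 2 =
          (B ^ 2 + m ^ 2 * S n ^ 2) / (2 * m) := by
        field_simp
      rw [e, le_div_iff₀ (by positivity)]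
      nlinarith
    calc |lavg N F| = |(lavg N F - lavg N fun n => S n * Q n) + lavg N fun n => S n * Q n| := by
          rw [sub_add_cancel]
      _ ≤ |lavg N F - lavg N fun n => S n * Q n| + |lavg N fun n => S n * Q n| := abs_add_le _ _
      _ ≤ _ := by linarith
  rw [Metric.tendsto_atTop]
  intro ε hε
  obtain ⟨m, hm⟩ := exists_nat_gt ((B ^ 2 + 1) / ε)
  have hm0 : (0 : ℝ) < m := lt_of_le_of_lt (by positivity) hm
  have hm1 : 0 < m := by exact_mod_cast hm0
  obtain ⟨N₀, hN₀⟩ := eventually_atTop.1 (key m hm1)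
  refine ⟨N₀, fun N hN => ?_⟩
  rw [Real.dist_eq, sub_zero]
  refine lt_of_le_of_lt (hN₀ N hN) ?_
  rw [div_lt_iff₀ hε] at hm
  rw [div_lt_iff₀ hm0]
  linarith

end Pool.Agent.H78.EX
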